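import Pool.Agent.Helper56.HS.Stm
import Pool.Agent.Helper28.NL.SCH

/-! Package SCHX of the project HS (`MP_9cd479_nt`). -/

set_option autoImplicit false

namespace Pool.Agent.Helper87.HS

open Pool.Agent.Helper35.EM Pool.Agent.Helper56.SA Pool.Agent.Helper56.EM Pool.Agent.Helper56.NL
  Pool.Agent.Helper56.HS Module Submodule Set

/-- Independence over `S` in terms of a basis of `S`. -/
lemma ind_of_indS {S B I : Set ℂ} (hB : M.IsBasis B S) (hI : IndS S I) :
    Disjoint I B ∧ M.Indep (I ∪ B) := by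
  have hdis : ∀ e ∈ I, e ∉ M.closure S := fun e he h =>
    hI e he (cl_mono subset_union_left h)
  have hIB : Disjoint I B := Set.disjoint_left.2 fun e he heB =>
    hdis e he (cl_self (hB.subset heB))
  refine ⟨hIB, ?_⟩
  -- finite subsets suffice
  rw [Matroid.indep_iff_forall_subset_not_isCircuit' ]
  refine ⟨fun C hC hcirc => ?_, by simp⟩
  -- a circuit meets `I`
  by_cases hCB : C ⊆ B
  · exact hcirc.dep.not_indep (hB.indep.subset hCB)
  · obtain ⟨e, heC, heB⟩ := Set.not_subset.1 hCB
    have heI : e ∈ I := (hC heC).resolve_right heB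
    have h1 : e ∈ M.closure (C \ {e}) := hcirc.mem_closure_sdiff_singleton_of_mem heC
    apply hI e heI
    refine cl_mono ?_ h1
    rintro x ⟨hx, hxe⟩
    rcases hC hx with h | h
    · exact Or.inr ⟨h, hxe⟩
    · exact Or.inl (hB.subset h)

lemma indS_of_ind {S B K : Set ℂ} (hB : M.IsBasis B S) (hd : Disjoint K B)
    (hK : M.Indep (K ∪ B)) : IndS S K := by
  intro e he h
  have h1 : M.closure (S ∪ (K \ {e})) = M.closure (B ∪ (K \ {e})) :=
    (Matroid.closure_union_congr_left hB.closure_eq_closure).symm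
  rw [h1] at h
  have h2 : e ∉ M.closure ((K ∪ B) \ {e}) := hK.notMem_closure_sdiff_of_mem (Or.inl he)
  apply h2
  refine cl_mono ?_ h
  rintro x (hx | hx)
  · refine ⟨Or.inr hx, ?_⟩
    rintro rfl
    exact Set.disjoint_left.1 hd he hx
  · exact ⟨Or.inl hx.1, hx.2⟩

/-- An independent set over `S` in the closure of a finite set `A` is at most as large as some
subset of `A` which is independent over `S`. -/
lemma exchange {S A : Set ℂ} (hA : A.Finite) (I : Finset ℂ) (hI : IndS S (I : Set ℂ))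
    (hIA : (I : Set ℂ) ⊆ M.closure A) (n : ℕ) (hn : n ≤ I.card) :
    ∃ K : Finset ℂ, (K : Set ℂ) ⊆ A ∧ K.card = n ∧ IndS S (K : Set ℂ) := by
  obtain ⟨B, hB⟩ := M.exists_isBasis S (by simp)
  obtain ⟨hIB, hIi⟩ := ind_of_indS hB hI
  have hNI : (M.contract B).Indep (I : Set ℂ) := hB.indep.contract_indep_iff.2 ⟨hIB, hIi⟩
  obtain ⟨J, hJ⟩ := (M.contract B).exists_isBasis (A \ B) (by
    rw [Matroid.contract_ground]
    exact sdiff_subset_sdiff_left (by simp))
  have hJfin : J.Finite := (hA.sdiff).subset hJ.subset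
  have hbas := hB.indep.union_isBasis_union_of_contract_isBasis hJ
  have hle : (I : Set ℂ).encard ≤ J.encard := by
    by_contra hlt
    rw [not_le] at hlt
    obtain ⟨e, ⟨heI, heJ⟩, heN⟩ := hJ.indep.augment hNI hlt
    obtain ⟨h1, h2⟩ := hB.indep.contract_indep_iff.1 heN
    have heB : e ∉ B := fun h => Set.disjoint_left.1 h1 (Set.mem_insert e J) h
    have h3 : e ∉ M.closure ((insert e J ∪ B) \ {e}) :=
      h2.notMem_closure_sdiff_of_mem (Or.inl (Set.mem_insert e J))
    apply h3
    have h4 : e ∈ M.closure (J ∪ B) := by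
      rw [hbas.closure_eq_closure]
      refine cl_mono ?_ (hIA heI)
      intro x hx
      by_cases hxB : x ∈ B
      · exact Or.inr hxB
      · exact Or.inl ⟨hx, hxB⟩
    refine cl_mono ?_ h4
    rintro x (hx | hx)
    · refine ⟨Or.inl (Set.mem_insert_of_mem e hx), ?_⟩
      rintro rfl
      exact heJ hx
    · refine ⟨Or.inr hx, ?_⟩
      rintro rfl
      exact heB hx
  have hcard : I.card ≤ hJfin.toFinset.card := by
    have h1 : J.encard = (hJfin.toFinset.card : ℕ∞) := hJfin.encard_eq_coe_toFinset_card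
    rw [h1, Set.encard_coe_eq_coe_finsetCard] at hle
    exact_mod_cast hle
  obtain ⟨K, hKJ, hKn⟩ := Finset.exists_subset_card_eq (hn.trans hcard)
  have hKJ' : (K : Set ℂ) ⊆ J := fun x hx => by
    have := hKJ (Finset.mem_coe.1 hx)
    simpa using this
  refine ⟨K, fun x hx => (hJ.subset (hKJ' hx)).1, hKn, ?_⟩
  obtain ⟨h1, h2⟩ := hB.indep.contract_indep_iff.1 (hJ.indep.subset hKJ')
  exact indS_of_ind hB h1 h2

theorem schx : S_SCHX := by
  intro hIND K lam S P0 hrk n z hz
  have hli : LinearIndependent ℚ z := by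
    refine Fintype.linearIndependent_iff.2 fun q hq => ?_
    have h := hz q (by rw [hq, map_zero]; exact P0.zero_mem)
    exact fun i => congrFun h i
  have hfin : FiniteDimensional ℚ (span ℚ (range z)) :=
    FiniteDimensional.span_of_finite ℚ (finite_range z)
  have hVP : (span ℚ (range z)).map (gr lam) ⊓ P0 = ⊥ := by
    rw [eq_bot_iff]
    rintro q ⟨⟨x, hx, rfl⟩, hq⟩
    obtain ⟨c, rfl⟩ := (Submodule.mem_span_range_iff_exists_fun ℚ).1 hx
    have h2 := hz c hq
    rw [h2]
    simp
  obtain ⟨I, hI1, hI2, hI3⟩ := hrk (span ℚ (range z)) hfin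
  rw [hVP, finrank_bot, finrank_span_eq_card hli, Fintype.card_fin, add_zero] at hI3
  obtain ⟨L, hL1, hL2, hL3⟩ := exchange (S := S)
    (A := range (fun j => (z j : ℂ)) ∪ range fun j => Complex.exp (lam (z j)))
    ((finite_range _).union (finite_range _)) I hI2
    (hI1.trans (Pool.Agent.Helper28.NL.co_span lam z)) n hI3
  have h1 := hIND S L hL3
  let e : Fin n ≃ L := (Fintype.equivFinOfCardEq (by rw [Fintype.card_coe, hL2])).symm
  refine ⟨fun i => (e i : ℂ), fun i => hL1 (e i).2, ?_⟩
  exact h1.comp e e.injective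

end Pool.Agent.Helper87.HS
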